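import Mathlib

/-!
# MP_64d5df_nt: the loneliness gap is not monotone under translations of the speed set

For every `n ≥ 2` the `n`-set `V = {1, 3, …, 2n-1}` has the largest possible gap `κ(V) = 1/2`, but its
translate `1 + V = {2, 4, …, 2n}` has the smallest (conjecturally) possible gap `1/(n+1)`.
-/

namespace Pool.Agent.Results.MP_64d5df_nt.OddSpeeds

/-- distance from `x` to the nearest integer -/
noncomputable def distInt (x : ℝ) : ℝ := |x - round x|

/-- the loneliness gap `κ(V) = sup_t min_{v ∈ V} ‖t v‖` of a finite set of speeds -/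
noncomputable def kappa (V : Finset ℕ) : ℝ := ⨆ t : ℝ, ⨅ v : V, distInt (t * (v : ℕ))

/-- an `n`-set: `n` distinct positive integers -/
def IsSpeedSet (n : ℕ) (V : Finset ℕ) : Prop := V.card = n ∧ ∀ v ∈ V, 0 < v

/-- the translate `a + V` -/
def translate (a : ℕ) (V : Finset ℕ) : Finset ℕ := V.image (fun v => a + v)

/-- Q2 -/
def StatementQ2 : Prop := ∀ n : ℕ, 1 ≤ n → ∀ V : Finset ℕ, IsSpeedSet n V → ∀ a : ℕ, 0 < a →
  kappa V ≤ kappa (translate a V)

/-- the set `{1, 3, …, 2n-1}` -/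
def odds (n : ℕ) : Finset ℕ := (Finset.range n).image (fun k => 2 * k + 1)

theorem distInt_le (x : ℝ) : distInt x ≤ 1 / 2 := abs_sub_round x

theorem distInt_nonneg (x : ℝ) : 0 ≤ distInt x := abs_nonneg _

theorem iInf_le_half (V : Finset ℕ) (t : ℝ) : (⨅ v : V, distInt (t * (v : ℕ))) ≤ 1 / 2 := by
  rcases isEmpty_or_nonempty V with h | ⟨⟨v⟩⟩
  · rw [Real.iInf_of_isEmpty]; norm_num
  · exact (ciInf_le (Set.finite_range _).bddBelow v).trans (distInt_le _)

theorem bdd (V : Finset ℕ) :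
    BddAbove (Set.range fun t : ℝ => ⨅ v : V, distInt (t * (v : ℕ))) :=
  ⟨1 / 2, by rintro _ ⟨t, rfl⟩; exact iInf_le_half V t⟩

theorem card_odds (n : ℕ) : (odds n).card = n := by
  unfold odds
  rw [Finset.card_image_of_injective _ (fun a b h => by simpa using h), Finset.card_range]

theorem kappa_odds {n : ℕ} (hn : 1 ≤ n) : kappa (odds n) = 1 / 2 := by
  apply le_antisymm
  · exact ciSup_le fun t => iInf_le_half _ t
  · refine le_trans ?_ (le_ciSup (bdd (odds n)) (1 / 2))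
    have hne : Nonempty (odds n) := ⟨⟨1, Finset.mem_image.2 ⟨0, Finset.mem_range.2 hn, rfl⟩⟩⟩
    apply le_ciInf
    rintro ⟨v, hv⟩
    obtain ⟨k, -, rfl⟩ := Finset.mem_image.1 hv
    change 1 / 2 ≤ |(1 / 2 : ℝ) * ((2 * k + 1 : ℕ) : ℝ) - round ((1 / 2 : ℝ) * ((2 * k + 1 : ℕ) : ℝ))|
    set m : ℤ := round ((1 / 2 : ℝ) * ((2 * k + 1 : ℕ) : ℝ)) with hm
    have h1 : (1 : ℤ) ≤ |2 * (k : ℤ) + 1 - 2 * m| := by
      exact Int.one_le_abs (by omega)
    have h2 : (1 : ℝ) ≤ |2 * (k : ℝ) + 1 - 2 * m| := by exact_mod_cast h1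
    have h3 : (1 / 2 : ℝ) * ((2 * k + 1 : ℕ) : ℝ) - m = (1 / 2) * (2 * (k : ℝ) + 1 - 2 * m) := by
      push_cast; ring
    rw [h3, abs_mul, abs_of_pos (by norm_num : (0 : ℝ) < 1 / 2)]
    linarith

theorem mem_translate {n v : ℕ} : v ∈ translate 1 (odds n) ↔ ∃ k : ℕ, 0 < k ∧ k ≤ n ∧ v = 2 * k := by
  unfold translate odds
  simp only [Finset.mem_image, Finset.mem_range]
  constructor
  · rintro ⟨w, ⟨k, hk, rfl⟩, rfl⟩
    exact ⟨k + 1, by omega, by omega, by omega⟩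
  · rintro ⟨k, h1, h2, rfl⟩
    exact ⟨2 * (k - 1) + 1, ⟨k - 1, by omega, rfl⟩, by omega⟩

theorem kappa_translate {n : ℕ} (hn : 1 ≤ n) : kappa (translate 1 (odds n)) = 1 / (n + 1) := by
  apply le_antisymm
  · refine ciSup_le fun t => ?_
    obtain ⟨k, h1, h2, h3⟩ := Real.exists_nat_abs_mul_sub_round_le (2 * t) (n := n) (by omega)
    refine (ciInf_le (Set.finite_range _).bddBelow
      (⟨2 * k, mem_translate.2 ⟨k, h1, h2, rfl⟩⟩ : translate 1 (odds n))).trans ?_
    change |t * ((2 * k : ℕ) : ℝ) - round (t * ((2 * k : ℕ) : ℝ))| ≤ _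
    have : t * ((2 * k : ℕ) : ℝ) = k * (2 * t) := by push_cast; ring
    rw [this]
    exact h3
  · refine le_trans ?_ (le_ciSup (bdd _) (1 / (2 * (n + 1) : ℝ)))
    have hne : Nonempty (translate 1 (odds n)) := ⟨⟨2, mem_translate.2 ⟨1, by omega, hn, rfl⟩⟩⟩
    apply le_ciInf
    rintro ⟨v, hv⟩
    obtain ⟨k, h1, h2, rfl⟩ := mem_translate.1 hv
    have hpos : (0 : ℝ) < n + 1 := by positivity
    have e : (1 / (2 * (n + 1) : ℝ)) * ((2 * k : ℕ) : ℝ) = k / (n + 1) := by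
      push_cast; field_simp
    change 1 / ((n : ℝ) + 1) ≤ |(1 / (2 * (n + 1) : ℝ)) * ((2 * k : ℕ) : ℝ) -
      round ((1 / (2 * (n + 1) : ℝ)) * ((2 * k : ℕ) : ℝ))|
    rw [e]
    set m : ℤ := round ((k : ℝ) / (n + 1)) with hm
    have h3 : (1 : ℤ) ≤ |(k : ℤ) - m * (n + 1)| := by
      apply Int.one_le_abs
      intro h
      have h4 : (k : ℤ) = m * (n + 1) := by omega
      have h5 : (0 : ℤ) < m * (n + 1) := by rw [← h4]; exact_mod_cast h1
      have h6 : m * ((n : ℤ) + 1) ≤ n := by rw [← h4]; exact_mod_cast h2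
      have h7 : 0 < m := by
        by_contra hm'
        have : m * ((n : ℤ) + 1) ≤ 0 := mul_nonpos_of_nonpos_of_nonneg (not_lt.1 hm') (by omega)
        omega
      nlinarith
    have h4 : (1 : ℝ) ≤ |(k : ℝ) - m * (n + 1)| := by exact_mod_cast h3
    have h5 : (k : ℝ) / (n + 1) - m = (k - m * (n + 1)) / (n + 1) := by field_simp
    rw [h5, abs_div, abs_of_pos hpos]
    exact div_le_div_of_nonneg_right h4 hpos.le

/-- Q2 is false, for every `n ≥ 2` and with the translation `a = 1`: the `n`-set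
`V = {1, 3, …, 2n-1}` has `κ(V) = 1/2`, the largest value of `κ`, but `κ(1 + V) = 1/(n+1)`. -/
theorem result : ¬ StatementQ2 ∧ ∀ n : ℕ, 2 ≤ n →
    IsSpeedSet n (odds n) ∧ kappa (odds n) = 1 / 2 ∧ kappa (translate 1 (odds n)) = 1 / (n + 1) ∧
    kappa (translate 1 (odds n)) < kappa (odds n) := by
  have key : ∀ n : ℕ, 2 ≤ n →
      IsSpeedSet n (odds n) ∧ kappa (odds n) = 1 / 2 ∧
      kappa (translate 1 (odds n)) = 1 / (n + 1) ∧
      kappa (translate 1 (odds n)) < kappa (odds n) := by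
    intro n hn
    refine ⟨⟨card_odds n, ?_⟩, kappa_odds (by omega), kappa_translate (by omega), ?_⟩
    · intro v hv
      obtain ⟨k, -, rfl⟩ := Finset.mem_image.1 hv
      omega
    · rw [kappa_odds (by omega), kappa_translate (by omega)]
      have : (2 : ℝ) ≤ n := by exact_mod_cast hn
      apply one_div_lt_one_div_of_lt <;> linarith
  refine ⟨fun h => ?_, key⟩
  obtain ⟨h1, -, -, h2⟩ := key 2 le_rfl
  exact absurd (h 2 (by norm_num) _ h1 1 one_pos) (not_le.2 h2)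

end Pool.Agent.Results.MP_64d5df_nt.OddSpeeds
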